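import Pool.Agent.ASO.Stmts3
import Pool.Agent.Helper85_AT3.LSB

/-!
Squad ASO, row LBG: the local block of `W ≠ ⊥` has the defect group `V` and inertial index one.
-/

open scoped BigOperators

noncomputable section

namespace Pool.Agent.PP.SO.H40

open Pool.Agent.Helper51_AWC Pool.Agent.Helper79_WRA Pool.Agent.PP Pool.Agent.PP.KF
open Pool.Agent.PP.K9 Pool.Agent.PP.K9.H97 Pool.Agent.PP.H75 Pool.Agent.PP.T3
open Pool.Agent.PP.T3.H85

attribute [local instance] Ideal.Quotient.field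

/-- LBG -/
theorem lbg : LbgStmt := by
  intro ℓ _ M _ hM V₀ G _ _ _ _ E₀ hFr B hB W hW
  have hF : GoodF ℓ (FF M) := H50.fld ℓ Fact.out M hM
  have hL := hB.ld
  have hLc := hB.lb W
  have hVX : B.i.range ≤ B.C W := by
    rintro _ ⟨v, rfl⟩
    refine Subgroup.mem_centralizer_iff.2 ?_
    rintro _ ⟨w, _, rfl⟩
    rw [← map_mul, ← map_mul, mul_comm]
  have hCX : Subgroup.centralizer (B.i.range : Set G) ≤ B.C W := by
    refine Subgroup.centralizer_le ?_
    rintro _ ⟨w, _, rfl⟩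
    exact ⟨w, rfl⟩
  have heC : IsCl (fun t : B.C W => B.e t) := fun x y => hL.blk.1.1 x y
  have hVcard : Nat.card (B.i.range.subgroupOf (B.C W)) = Nat.card B.i.range :=
    Nat.card_congr (Subgroup.subgroupOfEquivOfLe hVX).toEquiv
  have hVp : IsPGroup ℓ (B.i.range.subgroupOf (B.C W)) :=
    hL.tp.pg.of_equiv (Subgroup.subgroupOfEquivOfLe hVX).symm
  have hTb : Tp ℓ (fun t : B.C W => B.b W t) (B.i.range.subgroupOf (B.C W)) := by
    refine ⟨hVp, gd_of_gam hVX hCX hL.gam hLc.gam, ?_⟩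
    intro Q hQ hQb
    have h1 := gd_map (gd_of_mul hF heC hLc.blk.blk.1.1 hLc.und hQ hQb)
    have hcard : Nat.card (Q.map (B.C W).subtype) = Nat.card Q :=
      (Nat.card_congr (Q.equivMapOfInjective (B.C W).subtype
        (B.C W).subtype_injective).toEquiv).symm
    have h2 := hL.tp.mx _ (hQ.map (B.C W).subtype) h1
    rw [hcard] at h2
    rw [hVcard]
    exact h2
  refine ⟨ld_of hVX hCX hL.ab hLc.blk.blk hL.gam hLc.gam hTb, ?_⟩
  rw [ix_eq hVX hCX hL.gam.supp, Subgroup.relIndex_eq_one]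
  intro t ht
  obtain ⟨σ, hσ, hσt⟩ := hB.act t ht.1
  obtain ⟨w, hwW, hw1⟩ := (Subgroup.ne_bot_iff_exists_ne_one).1 hW |>.elim
    (fun a ha => (⟨(a : V₀), a.2, fun h => ha (Subtype.ext h)⟩ : ∃ w : V₀, w ∈ W ∧ w ≠ 1))
  have hcw : B.i w * t = t * B.i w :=
    Subgroup.mem_centralizer_iff.1 ht.2 (B.i w) ⟨w, hwW, rfl⟩
  have hfix : σ w = w := by
    apply hB.inj
    rw [← hσt w, ← hcw, mul_inv_cancel_right]
  have hσ1 : σ = 1 := by
    by_contra hne
    exact hw1 (hFr.fr σ hσ hne w hfix)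
  refine Subgroup.mem_centralizer_iff.2 ?_
  rintro _ ⟨v, rfl⟩
  have h := hσt v
  rw [hσ1, MulAut.one_apply] at h
  calc B.i v * t = t * B.i v * t⁻¹ * t := by rw [h]
    _ = t * B.i v := by group

end Pool.Agent.PP.SO.H40
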